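import Mathlib
import Pool.Agent.U485.SM.Stm

/-!
# Greedy colouring
-/

namespace Pool.Agent.U373.HT.COL

open Finset

theorem t_COL : Pool.Agent.U485.SM.S_COL := by
  intro V R hR D
  induction V using Finset.induction_on with
  | empty => intro _; exact ⟨fun _ => 0, by simp, by simp⟩
  | insert v V hv ih =>
    intro h
    obtain ⟨c, hc1, hc2⟩ := ih (fun n hn => by
      refine le_trans (Set.ncard_le_ncard ?_ ?_) (h n (mem_insert_of_mem hn))
      · rintro m ⟨hm, hmn, hr⟩
        exact ⟨mem_insert_of_mem hm, hmn, hr⟩
      · exact Set.Finite.subset (insert v V).finite_toSet (fun m hm => hm.1))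
    classical
    set N : Finset ℤ := V.filter (fun m => R v m) with hN
    have hNc : N.card ≤ D := by
      have h1 := h v (mem_insert_self v V)
      rw [← Set.ncard_coe_finset N]
      refine le_trans (Set.ncard_le_ncard ?_ ?_) h1
      · intro m hm
        have hm' : m ∈ N := hm
        rw [hN, mem_filter] at hm'
        exact ⟨mem_insert_of_mem hm'.1, fun e => hv (e ▸ hm'.1), hm'.2⟩
      · exact Set.Finite.subset (insert v V).finite_toSet (fun m hm => hm.1)
    have hlt : (N.image c).card < (range (D + 1)).card := by
      rw [card_range]; exact lt_of_le_of_lt card_image_le (by omega)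
    obtain ⟨k, hk1, hk2⟩ := Finset.exists_mem_notMem_of_card_lt_card hlt
    refine ⟨Function.update c v k, ?_, ?_⟩
    · intro n hn
      rcases eq_or_ne n v with rfl | hne
      · rw [Function.update_self]; have := mem_range.1 hk1; omega
      · rw [Function.update_of_ne hne]
        exact hc1 n ((mem_insert.1 hn).resolve_left hne)
    · intro n hn m hm hnm hcc hr
      rcases eq_or_ne n v with rfl | hne
      · have hmV : m ∈ V := (mem_insert.1 hm).resolve_left (fun e => hnm e.symm)
        rw [Function.update_self, Function.update_of_ne (Ne.symm hnm)] at hcc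
        exact hk2 (mem_image.2 ⟨m, by rw [hN, mem_filter]; exact ⟨hmV, hr⟩, hcc.symm⟩)
      · have hnV : n ∈ V := (mem_insert.1 hn).resolve_left hne
        rcases eq_or_ne m v with rfl | hme
        · rw [Function.update_self, Function.update_of_ne hne] at hcc
          exact hk2 (mem_image.2 ⟨n, by rw [hN, mem_filter]; exact ⟨hnV, hR _ _ hr⟩, hcc⟩)
        · have hmV : m ∈ V := (mem_insert.1 hm).resolve_left hme
          rw [Function.update_of_ne hne, Function.update_of_ne hme] at hcc
          exact hc2 n hnV m hmV hnm hcc hr

end Pool.Agent.U373.HT.COL
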